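import Pool.Agent.H50.KI.FN2
import Pool.Agent.H50.KI.MPI

/-!
# Cubic (and longer) averages: every system has induced maps with pointwise convergence

For a map `T` and a set `A` the induced map `T_A` sends `x` to `T^n x`, where `n ≥ 1` is the first return time of `x`
to `A`. If `T` preserves the probability measure `μ` then `T_A` preserves `μ` restricted to `A`.

Theorem. Let `T` be ANY invertible measure preserving map of a standard Borel probability space (no ergodicity, no
assumption on entropy or mixing) and `ε > 0`. There is a measurable set `A` with `μ(Aᶜ) ≤ ε` such that the system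
`(A, μ|A, T_A)` has the property asked for in Q1, for all lengths: for all integers `0 < a_1 < ⋯ < a_m` and all
bounded measurable `f_1, …, f_m` the averages `(1/N) ∑_{n ≤ N} f_1 (T_A^(a_1 n) x) ⋯ f_m (T_A^(a_m n) x)` converge for
almost every `x` in `A`. If `T` is ergodic and has almost no periodic points, the limit is the product of the means
of the `f_j` over `A`. So Q1 has the answer yes for systems in every class of Kakutani equivalence (`T` and `T_A` are
Kakutani equivalent), and for these systems arbitrarily close to any given one.

Proof. Random deletion of marked points. There are marker sets with labels which do not repeat along long pieces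
of orbits; a marked point is deleted if the fair coin of its label shows `true`. For a fixed point the fastest path
is ahead of the others, so that inside a block of the orbit many coins are new: they shift the index of the fastest
path by a binomial variable and leave the slower paths untouched. The conditional mean of a block is an average
along the orbit of `T` with slowly varying weights, which the ergodic theorem for `T` controls; the fluctuations of
different blocks are orthogonal. The exchange of the quantifiers (Fubini), a countable dense family and the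
ergodic theorem give all bounded functions at once.
-/

set_option autoImplicit false

open MeasureTheory Filter Topology
open scoped ENNReal

namespace Pool.Agent.Results.MP_9721b5_an.InducedMaps

universe u

/-- the first return time to `A` -/
noncomputable def ret {X : Type*} (T : X → X) (A : Set X) (x : X) : ℕ := sInf {n | 1 ≤ n ∧ T^[n] x ∈ A}

/-- the induced map (first return map) of `T` on `A` -/
noncomputable def induced {X : Type*} (T : X → X) (A : Set X) (x : X) : X := T^[ret T A x] x

/-- the multiple averages `(1/N) ∑_{n=1}^N ∏_j f_j (R^(a_j n) x)` of a map `R` -/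
noncomputable def avg {X : Type*} (R : X → X) {m : ℕ} (a : Fin m → ℕ) (f : Fin m → X → ℂ) (N : ℕ) (x : X) : ℂ :=
  (1 / (N : ℂ)) * ∑ n ∈ Finset.Icc 1 N, ∏ j, f j (R^[a j * n] x)

theorem result {X : Type u} [MeasurableSpace X] [StandardBorelSpace X] (μ : Measure X) [IsProbabilityMeasure μ]
    (T : X ≃ᵐ X) (hT : MeasurePreserving T μ μ) (ε : ℝ≥0∞) (hε : 0 < ε) :
    ∃ A : Set X, MeasurableSet A ∧ μ Aᶜ ≤ ε ∧
      MeasurePreserving (induced T A) (μ.restrict A) (μ.restrict A) ∧
      ∀ (m : ℕ) (a : Fin m → ℕ), StrictMono a → (∀ j, 0 < a j) → ∀ f : Fin m → X → ℂ,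
        (∀ j, Measurable (f j)) → (∃ C, ∀ j x, ‖f j x‖ ≤ C) →
        (∀ᵐ x ∂(μ.restrict A), ∃ L, Tendsto (fun N : ℕ => avg (induced T A) a f N x) atTop (𝓝 L)) ∧
        (Ergodic T μ → (∀ᵐ x ∂μ, ∀ n : ℕ, 0 < n → T^[n] x ≠ x) → ∀ᵐ x ∂(μ.restrict A),
          Tendsto (fun N : ℕ => avg (induced T A) a f N x) atTop
            (𝓝 (∏ j, (((μ A).toReal : ℂ)⁻¹ * ∫ y in A, f j y ∂μ)))) := by
  obtain ⟨A, hA, hAε, h⟩ := Pool.Agent.H50.KI.gen μ T hT ε hε
  refine ⟨A, hA, hAε, Pool.Agent.H50.KI.partMPI X μ T hT A hA, ?_⟩
  intro m a ha ha0 f hf hfb
  obtain ⟨h1, h2⟩ := h m a ha ha0 f hf hfb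
  exact ⟨ae_restrict_of_ae h1, fun h3 h4 => ae_restrict_of_ae (h2 h3 h4)⟩

end Pool.Agent.Results.MP_9721b5_an.InducedMaps
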